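import Mathlib.LinearAlgebra.FreeModule.PID
import Mathlib.RingTheory.Flat.TorsionFree
import Mathlib.Data.Int.ConditionallyCompleteOrder
import Mathlib.Data.Int.Star
import Mathlib.Algebra.Order.Ring.Star
import Mathlib.LinearAlgebra.Lagrange
import Mathlib.RingTheory.PicardGroup
import Mathlib.FieldTheory.Finite.GaloisField
import Mathlib.RingTheory.SimpleRing.Principal
import Mathlib.RingTheory.Henselian
import Mathlib.RingTheory.RegularLocalRing.Defs
import Mathlib.Tactic.Algebra.Basic
import Mathlib.Tactic.Cases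

-- ======== part 0: formerly Pool.Agent.MP_a31471_co.ff.Forms
section MrgPart0

/-!
Anisotropic forms over a prime field: pairs of functions whose restrictions to a line are
polynomials of consecutive degrees.
-/

set_option autoImplicit false

namespace Pool.Agent.MP_a31471_co.ff

open Polynomial

variable {p : ℕ} [Fact p.Prime]

/-- A norm form of degree `j` on a space of dimension at most `j`. -/
theorem exists_form (V : Type) [AddCommGroup V] [Module (ZMod p) V] [Module.Finite (ZMod p) V]
    (j : ℕ) (hj : j ≠ 0) (hV : Module.finrank (ZMod p) V ≤ j) :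
    ∃ N : V → ZMod p, ∀ a d : V, ∃ f : (ZMod p)[X], (∀ t, f.eval t = N (a + t • d)) ∧
      (d ≠ 0 → f.natDegree = j) ∧ (d = 0 → f.natDegree = 0) := by
  have hK : Module.finrank (ZMod p) (GaloisField p j) = j := GaloisField.finrank p hj
  obtain ⟨ι, hι⟩ := (finrank_le_iff_exists_linearMap (R := ZMod p) (M := V)
    (M' := GaloisField p j)).1 (by rw [hK]; exact hV)
  let b := Module.finBasisOfFinrankEq (ZMod p) (GaloisField p j) hK
  let M : V → Matrix (Fin j) (Fin j) (ZMod p) := fun x => Algebra.leftMulMatrix b (ι x)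
  refine ⟨fun x => (M x).det, fun a d => ?_⟩
  by_cases hd : d = 0
  · exact ⟨C (M a).det, fun t => by simp [hd], fun h => absurd hd h, fun _ => natDegree_C _⟩
  refine ⟨Matrix.det ((X : (ZMod p)[X]) • (M d).map C + (M a).map C), fun t => ?_, fun _ => ?_,
    fun h => absurd h hd⟩
  · rw [← coe_evalRingHom, RingHom.map_det]
    congr 1
    ext r s
    simp [M, map_add, map_smul]
    ring
  · have h1 := natDegree_det_X_add_C_le (M d) (M a)
    have h2 := coeff_det_X_add_C_card (M d) (M a)
    rw [Fintype.card_fin] at h1 h2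
    refine le_antisymm h1 (le_natDegree_of_ne_zero ?_)
    rw [h2]
    have h3 : ι d ≠ 0 := fun h => hd (hι (by rw [h, map_zero]))
    have h4 := (Algebra.norm_ne_zero_iff (R := ZMod p) (x := ι d)).2 h3
    rwa [Algebra.norm_eq_matrix_det b] at h4

/-- One block: the product of spaces of dimensions `1, …, e`. -/
abbrev Blk (p e : ℕ) : Type := (j : Fin e) → Fin (j + 1) → ZMod p

theorem natDegree_sum_top {e : ℕ} (f : Fin e → (ZMod p)[X]) (j0 : Fin e) (m : ℕ) (hm : 0 < m)
    (h0 : (f j0).natDegree = m) (h1 : ∀ j, j ≠ j0 → (f j).natDegree < m) :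
    (∑ j, f j).natDegree = m := by
  rw [← Finset.add_sum_erase _ _ (Finset.mem_univ j0), natDegree_add_eq_left_of_natDegree_lt, h0]
  rw [h0]
  refine lt_of_le_of_lt (natDegree_sum_le_of_forall_le (n := m - 1) _ _ fun j hj => ?_) (by omega)
  have := h1 j (Finset.ne_of_mem_erase hj)
  omega

/-- A pair of functions on a block whose restrictions to each line are polynomials of degree at
most `e` and `e + 1`, of consecutive positive degrees if the direction is not zero. -/
theorem exists_pair (e : ℕ) : ∃ P Q : Blk p e → ZMod p, ∀ a d : Blk p e,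
    ∃ f g : (ZMod p)[X], (∀ t, f.eval t = P (a + t • d)) ∧ (∀ t, g.eval t = Q (a + t • d)) ∧
      f.natDegree ≤ e ∧ g.natDegree ≤ e + 1 ∧
      (d ≠ 0 → ∃ j, 1 ≤ j ∧ j ≤ e ∧ f.natDegree = j ∧ g.natDegree = j + 1) := by
  have h1 := fun j : Fin e => exists_form (p := p) (Fin (j + 1) → ZMod p) (j + 1) (by omega)
    (by simp)
  have h2 := fun j : Fin e => exists_form (p := p) (Fin (j + 1) → ZMod p) (j + 2) (by omega)
    (by simp)
  choose N hN using h1
  choose N' hN' using h2
  refine ⟨fun x => ∑ j, N j (x j), fun x => ∑ j, N' j (x j), fun a d => ?_⟩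
  choose f hf using fun j => hN j (a j) (d j)
  choose g hg using fun j => hN' j (a j) (d j)
  have hf1 : ∀ j : Fin e, (f j).natDegree ≤ j + 1 := fun j => by
    by_cases h : d j = 0
    · rw [(hf j).2.2 h]; omega
    · rw [(hf j).2.1 h]
  have hg1 : ∀ j : Fin e, (g j).natDegree ≤ j + 2 := fun j => by
    by_cases h : d j = 0
    · rw [(hg j).2.2 h]; omega
    · rw [(hg j).2.1 h]
  refine ⟨∑ j, f j, ∑ j, g j, fun t => ?_, fun t => ?_, ?_, ?_, fun hd => ?_⟩
  · rw [eval_finsetSum]
    exact Finset.sum_congr rfl fun j _ => (hf j).1 t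
  · rw [eval_finsetSum]
    exact Finset.sum_congr rfl fun j _ => (hg j).1 t
  · exact natDegree_sum_le_of_forall_le _ _ fun j _ => (hf1 j).trans (by have := j.2; omega)
  · exact natDegree_sum_le_of_forall_le _ _ fun j _ => (hg1 j).trans (by have := j.2; omega)
  · obtain ⟨j1, hj1⟩ := Function.ne_iff.1 hd
    obtain ⟨j0, hj0, hmax⟩ := Finset.exists_max_image
      (Finset.univ.filter fun j : Fin e => d j ≠ 0) (fun j => (j : ℕ))
      ⟨j1, Finset.mem_filter.2 ⟨Finset.mem_univ _, hj1⟩⟩
    have hj0' : d j0 ≠ 0 := (Finset.mem_filter.1 hj0).2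
    have hlt : ∀ j : Fin e, j ≠ j0 → d j ≠ 0 → (j : ℕ) < j0 := fun j hj h =>
      lt_of_le_of_ne (hmax j (Finset.mem_filter.2 ⟨Finset.mem_univ _, h⟩))
        (fun h' => hj (Fin.ext h'))
    refine ⟨j0 + 1, by omega, by have := j0.2; omega, ?_, ?_⟩
    · refine natDegree_sum_top f j0 _ (by omega) ((hf j0).2.1 hj0') fun j hj => ?_
      by_cases h : d j = 0
      · rw [(hf j).2.2 h]; omega
      · have := hlt j hj h
        have := hf1 j
        omega
    · refine natDegree_sum_top g j0 _ (by omega) ((hg j0).2.1 hj0') fun j hj => ?_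
      by_cases h : d j = 0
      · rw [(hg j).2.2 h]; omega
      · have := hlt j hj h
        have := hg1 j
        omega

end Pool.Agent.MP_a31471_co.ff

end MrgPart0

-- ======== part 1: formerly Pool.Agent.MP_a31471_co.ff.Keys
section MrgPart1

/-!
Two polynomials of consecutive degrees separate most points, and families of large sets have a
two-colouring without a monochromatic member.
-/

set_option autoImplicit false

namespace Pool.Agent.MP_a31471_co.ff

open Polynomial

/-- The possible gaps of the semigroup generated by `j` and `j + 1`. -/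
def gaps (j : ℕ) : Finset ℕ :=
  ((Finset.range j ×ˢ Finset.range j).filter fun x => x.1 < x.2).image fun x => x.1 * j + x.2

theorem card_gaps (j : ℕ) : (gaps j).card ≤ j.choose 2 := by
  refine Finset.card_image_le.trans ?_
  rw [Finset.card_product_filter_lt, Finset.card_range]

theorem gap_or (j : ℕ) (hj : 1 ≤ j) (m : ℕ) :
    m ∈ gaps j ∨ ∃ a b, m = a * j + b * (j + 1) := by
  have h1 := Nat.div_add_mod m j
  have h2 := Nat.mod_lt m hj
  by_cases h : m / j < m % j
  · refine Or.inl (Finset.mem_image.2 ⟨(m / j, m % j), ?_, by rw [mul_comm]; exact h1⟩)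
    exact Finset.mem_filter.2 ⟨Finset.mem_product.2
      ⟨Finset.mem_range.2 (by dsimp only; omega), Finset.mem_range.2 h2⟩, h⟩
  · obtain ⟨a, ha⟩ := Nat.exists_eq_add_of_le (not_lt.1 h)
    refine Or.inr ⟨a, m % j, ?_⟩
    rw [ha] at h1
    nlinarith

variable {F : Type} [Field F]

theorem decomp (f g : F[X]) (j : ℕ) (hj : 1 ≤ j) (hf : f.natDegree = j)
    (hg : g.natDegree = j + 1) (h : F[X]) :
    ∃ (w : F × F → F) (c : ℕ → F), ∀ t,
      h.eval t = w (f.eval t, g.eval t) + ∑ γ ∈ gaps j, c γ * t ^ γ := by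
  classical
  have hf0 : f ≠ 0 := fun h => by rw [h, natDegree_zero] at hf; omega
  have hg0 : g ≠ 0 := fun h => by rw [h, natDegree_zero] at hg; omega
  induction' hd : h.natDegree using Nat.strong_induction_on with m ih generalizing h
  by_cases h0 : h = 0
  · exact ⟨fun _ => 0, fun _ => 0, fun t => by simp [h0]⟩
  have key : ∃ u : F[X], u ≠ 0 ∧ u.natDegree = m ∧ ∀ l : F, ∃ (w : F × F → F) (c : ℕ → F), ∀ t,
      l * u.eval t = w (f.eval t, g.eval t) + ∑ γ ∈ gaps j, c γ * t ^ γ := by
    rcases gap_or j hj m with hm | ⟨a, b, hm⟩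
    · refine ⟨X ^ m, pow_ne_zero _ X_ne_zero, natDegree_X_pow _, fun l =>
        ⟨fun _ => 0, fun γ => if γ = m then l else 0, fun t => ?_⟩⟩
      simp [hm]
    · refine ⟨f ^ a * g ^ b, mul_ne_zero (pow_ne_zero _ hf0) (pow_ne_zero _ hg0), ?_, fun l =>
        ⟨fun x => l * (x.1 ^ a * x.2 ^ b), fun _ => 0, fun t => by simp⟩⟩
      rw [natDegree_mul (pow_ne_zero _ hf0) (pow_ne_zero _ hg0), natDegree_pow, natDegree_pow,
        hf, hg, hm]
  obtain ⟨u, hu0, hu, hw⟩ := key
  have hlu : u.leadingCoeff ≠ 0 := leadingCoeff_ne_zero.2 hu0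
  have hlh : h.leadingCoeff ≠ 0 := leadingCoeff_ne_zero.2 h0
  set l := h.leadingCoeff / u.leadingCoeff with hl
  have hl0 : l ≠ 0 := div_ne_zero hlh hlu
  obtain ⟨w, c, hwc⟩ := hw l
  by_cases hz : h - C l * u = 0
  · refine ⟨w, c, fun t => ?_⟩
    rw [← hwc t, sub_eq_zero.1 hz]
    simp
  have hdeg : (h - C l * u).degree < h.degree := by
    refine degree_sub_lt_left ?_ h0 ?_
    · rw [degree_C_mul hl0, degree_eq_natDegree h0, degree_eq_natDegree hu0, hd, hu]
    · rw [leadingCoeff_mul, leadingCoeff_C, hl, div_mul_cancel₀ _ hlu]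
  obtain ⟨w', c', h'⟩ := ih _ (hd ▸ natDegree_lt_natDegree hz hdeg) (h - C l * u) rfl
  refine ⟨fun x => w x + w' x, fun γ => c γ + c' γ, fun t => ?_⟩
  have h1 := hwc t
  have h2 := h' t
  simp only [eval_sub, eval_mul, eval_C] at h2
  simp only [add_mul, Finset.sum_add_distrib]
  linear_combination h1 + h2

/-- Two polynomials of degrees `j` and `j + 1` take at least `|T| - C(j, 2)` pairs of values on a
set `T`. -/
theorem card_keys [Fintype F] [DecidableEq F] (f g : F[X]) (j : ℕ) (hj : 1 ≤ j)
    (hf : f.natDegree = j) (hg : g.natDegree = j + 1) (T : Finset F) :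
    T.card ≤ (T.image fun t => (f.eval t, g.eval t)).card + j.choose 2 := by
  classical
  set I := T.image fun t => (f.eval t, g.eval t) with hI
  let Φ : (I → F) × (gaps j → F) → (T → F) := fun x t =>
    x.1 ⟨(f.eval t.1, g.eval t.1), Finset.mem_image_of_mem _ t.2⟩ + ∑ γ : gaps j, x.2 γ * t.1 ^ γ.1
  have hΦ : Function.Surjective Φ := fun u => by
    let r : F → F := fun t => if h : t ∈ T then u ⟨t, h⟩ else 0
    obtain ⟨w, c, hwc⟩ := decomp f g j hj hf hg (Lagrange.interpolate T id r)
    refine ⟨(fun x => w x.1, fun γ => c γ.1), funext fun t => ?_⟩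
    have h1 := Lagrange.eval_interpolate_at_node (s := T) (v := id) r (Set.injOn_id _) t.2
    have h2 := hwc t.1
    rw [id, h2] at h1
    have h3 : r t.1 = u t := by simp [r]
    rw [← h3, ← h1]
    simp only [Φ]
    rw [Finset.sum_coe_sort (gaps j) fun γ => c γ * t.1 ^ γ]
  have h1 := Fintype.card_le_of_surjective Φ hΦ
  simp only [Fintype.card_prod, Fintype.card_fun, Fintype.card_coe] at h1
  rw [← pow_add] at h1
  have h2 := (Nat.pow_le_pow_iff_right Fintype.one_lt_card).1 h1
  have h3 := card_gaps j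
  omega

/-- Property B by counting. -/
theorem exists_colouring {K : Type} [Fintype K] [DecidableEq K] (𝓢 : Finset (Finset K)) (v : ℕ)
    (hv : ∀ S ∈ 𝓢, v ≤ S.card) (h : 2 * 𝓢.card < 2 ^ v) :
    ∃ φ : K → Bool, ∀ S ∈ 𝓢, ∀ b, ∃ x ∈ S, φ x ≠ b := by
  classical
  by_contra hc
  push Not at hc
  let B : Finset K × Bool → Finset (K → Bool) := fun q =>
    Fintype.piFinset fun x => if x ∈ q.1 then {q.2} else Finset.univ
  have hB : ∀ q ∈ 𝓢 ×ˢ (Finset.univ : Finset Bool), (B q).card * 2 ^ v ≤ 2 ^ Fintype.card K := by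
    intro q hq
    have h1 := hv q.1 (Finset.mem_product.1 hq).1
    have h2 : (B q).card = 2 ^ (Fintype.card K - q.1.card) := by
      simp only [B, Fintype.card_piFinset, apply_ite Finset.card, Finset.card_singleton,
        Finset.card_univ, Fintype.card_bool]
      rw [Finset.prod_ite, Finset.prod_const_one, one_mul, Finset.prod_const]
      congr 1
      rw [← Finset.card_compl]
      congr 1
      ext x
      simp
    have h3 := Finset.card_le_univ q.1
    rw [h2, ← pow_add]
    exact Nat.pow_le_pow_right (by norm_num) (by omega)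
  have h1 : (Finset.univ : Finset (K → Bool)) ⊆ (𝓢 ×ˢ Finset.univ).biUnion B := fun φ _ => by
    obtain ⟨S, hS, b, hb⟩ := hc φ
    refine Finset.mem_biUnion.2 ⟨(S, b), Finset.mem_product.2 ⟨hS, Finset.mem_univ _⟩, ?_⟩
    refine Fintype.mem_piFinset.2 fun x => ?_
    by_cases hx : x ∈ S
    · simp [hx, hb x hx]
    · simp [hx]
  have h2 := (Finset.card_le_card h1).trans Finset.card_biUnion_le
  have h3 : (∑ q ∈ 𝓢 ×ˢ (Finset.univ : Finset Bool), (B q).card) * 2 ^ v ≤
      (𝓢.card * 2) * 2 ^ Fintype.card K := by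
    rw [Finset.sum_mul]
    refine (Finset.sum_le_card_nsmul _ _ _ hB).trans ?_
    simp
  simp only [Finset.card_univ, Fintype.card_fun, Fintype.card_bool] at h2
  have h4 : 0 < 2 ^ Fintype.card K := by positivity
  have h5 := (Nat.mul_le_mul_right (2 ^ v) h2).trans h3
  nlinarith

end Pool.Agent.MP_a31471_co.ff

end MrgPart1

-- marker of a merged file
example : 731051 + 332357 = 731051 + 332357 := rfl
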