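import Mathlib.Algebra.Order.Star.Real
import Mathlib.Analysis.SpecialFunctions.Log.Base
import Mathlib.RingTheory.TotallySplit
import Pool.Agent.MP_a31471_co.ff.Keys

/-!
Two-colourings of vector spaces over a prime field without monochromatic progressions.
-/

set_option autoImplicit false

namespace Pool.Agent.MP_a31471_co.ff

open Polynomial

variable {p : ℕ} [Fact p.Prime]

theorem exists_free (k e D v : ℕ) (hk : k ≤ p) (hv : v + e.choose 2 ≤ k)
    (h : 2 * p ^ ((2 * e + 3) * D) < 2 ^ v) :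
    ∃ χ : (Fin D → Blk p e) → Bool, ∀ a d, d ≠ 0 → ∃ i < k, χ (a + i • d) ≠ χ a := by
  classical
  obtain ⟨P, Q, hPQ⟩ := exists_pair (p := p) e
  let S : (Fin D → (Fin (e + 1) → ZMod p) × (Fin (e + 2) → ZMod p)) →
      Finset (Fin D → ZMod p × ZMod p) := fun co => (Finset.range k).image fun i : ℕ => fun b =>
    (∑ l, (co b).1 l * (i : ZMod p) ^ (l : ℕ), ∑ l, (co b).2 l * (i : ZMod p) ^ (l : ℕ))
  obtain ⟨φ, hφ⟩ := exists_colouring ((Finset.univ.image S).filter fun s => v ≤ s.card) v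
    (fun s hs => (Finset.mem_filter.1 hs).2) (by
      refine lt_of_le_of_lt (Nat.mul_le_mul_left _
        ((Finset.card_filter_le _ _).trans Finset.card_image_le)) (lt_of_eq_of_lt ?_ h)
      simp only [Finset.card_univ, Fintype.card_fun, Fintype.card_prod, Fintype.card_fin,
        ZMod.card]
      rw [← pow_add, ← pow_mul]
      congr 2
      ring)
  refine ⟨fun x => φ fun b => (P (x b), Q (x b)), fun a d hd => ?_⟩
  choose f g hf hg hf1 hg1 hj using fun b => hPQ (a b) (d b)
  let co : Fin D → (Fin (e + 1) → ZMod p) × (Fin (e + 2) → ZMod p) := fun b =>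
    (fun l => (f b).coeff l, fun l => (g b).coeff l)
  have hS : S co = (Finset.range k).image fun i : ℕ => fun b =>
      ((f b).eval (i : ZMod p), (g b).eval (i : ZMod p)) := by
    refine Finset.image_congr fun i _ => funext fun b => ?_
    rw [eval_eq_sum_range' (Nat.lt_succ_of_le (hf1 b)), eval_eq_sum_range' (Nat.lt_succ_of_le (hg1 b)),
      Finset.sum_range, Finset.sum_range]
  obtain ⟨b0, hb0⟩ := Function.ne_iff.1 hd
  obtain ⟨j, hj1, hj2, hj3, hj4⟩ := hj b0 hb0
  have hT : ((Finset.range k).image fun i : ℕ => (i : ZMod p)).card = k := by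
    rw [Finset.card_image_of_injOn, Finset.card_range]
    intro x hx y hy hxy
    have hx' : x < p := lt_of_lt_of_le (Finset.mem_range.1 hx) hk
    have hy' : y < p := lt_of_lt_of_le (Finset.mem_range.1 hy) hk
    have := congrArg ZMod.val hxy
    rwa [ZMod.val_natCast_of_lt hx', ZMod.val_natCast_of_lt hy'] at this
  have h1 := card_keys (f b0) (g b0) j hj1 hj3 hj4
    ((Finset.range k).image fun i : ℕ => (i : ZMod p))
  have h2 : (((Finset.range k).image fun i : ℕ => (i : ZMod p)).image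
      fun t => ((f b0).eval t, (g b0).eval t)) = (S co).image fun x => x b0 := by
    rw [hS, Finset.image_image, Finset.image_image]
    rfl
  have h3 : j.choose 2 ≤ e.choose 2 := Nat.choose_le_choose 2 hj2
  have h4 : ((S co).image fun x => x b0).card ≤ (S co).card := Finset.card_image_le
  rw [hT, h2] at h1
  obtain ⟨x, hx, hne⟩ := hφ (S co) (Finset.mem_filter.2
    ⟨Finset.mem_image_of_mem _ (Finset.mem_univ _), by omega⟩) (φ fun b => (P (a b), Q (a b)))
  rw [hS] at hx
  obtain ⟨i, hi, rfl⟩ := Finset.mem_image.1 hx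
  refine ⟨i, Finset.mem_range.1 hi, ?_⟩
  convert hne using 4 with b b
  · rw [hf, Nat.cast_smul_eq_nsmul]; rfl
  · rw [hg, Nat.cast_smul_eq_nsmul]; rfl

theorem finrank_blocks (e D : ℕ) :
    2 * Module.finrank (ZMod p) (Fin D → Blk p e) = D * (e * (e + 1)) := by
  have h : ∀ e : ℕ, 2 * ∑ j : Fin e, ((j : ℕ) + 1) = e * (e + 1) := fun e => by
    induction e with
    | zero => simp
    | succ e ih => rw [Fin.sum_univ_castSucc]; simp only [Fin.val_castSucc, Fin.val_last]; linarith
  simp only [Module.finrank_pi_fintype, Module.finrank_self, Finset.sum_const, Finset.card_univ,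
    Fintype.card_fin, smul_eq_mul, mul_one]
  rw [← h e]
  ring

/-- No monochromatic progression in every dimension up to `D e (e + 1) / 2`. -/
theorem exists_free_fin (k e D v n : ℕ) (hk : k ≤ p) (hv : v + e.choose 2 ≤ k)
    (h : 2 * p ^ ((2 * e + 3) * D) < 2 ^ v) (hn : 2 * n ≤ D * (e * (e + 1))) :
    ∃ χ : (Fin n → ZMod p) → Bool, ∀ a d, d ≠ 0 → ∃ i < k, χ (a + i • d) ≠ χ a := by
  obtain ⟨χ, hχ⟩ := exists_free k e D v hk hv h
  obtain ⟨ι, hι⟩ := (finrank_le_iff_exists_linearMap (R := ZMod p) (M := Fin n → ZMod p)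
    (M' := Fin D → Blk p e)).1 (by
      have := finrank_blocks (p := p) e D
      simp only [Module.finrank_fin_fun]
      omega)
  refine ⟨fun x => χ (ι x), fun a d hd => ?_⟩
  obtain ⟨i, hi, hne⟩ := hχ (ι a) (ι d) fun h0 => hd (hι (by rw [h0, map_zero]))
  exact ⟨i, hi, by simpa only [map_add, map_nsmul] using hne⟩

/-- The numerical side. -/
theorem numbers (k : ℕ) (hk : k ≤ p) (hp : 32 * Real.logb 2 p ≤ √k) :
    ∃ e D v n : ℕ, v + e.choose 2 ≤ k ∧ 2 * p ^ ((2 * e + 3) * D) < 2 ^ v ∧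
      2 * n ≤ D * (e * (e + 1)) ∧ (2 : ℝ) ^ (k * √k / 10) ≤ (p : ℝ) ^ n := by
  have hp2 : (2 : ℝ) ≤ p := by exact_mod_cast (Fact.out : p.Prime).two_le
  set L := Real.logb 2 p with hL
  set s := √(k : ℝ) with hs
  have hss : s * s = k := Real.mul_self_sqrt (Nat.cast_nonneg k)
  have hpL : (p : ℝ) = 2 ^ L := (Real.rpow_logb (by norm_num) (by norm_num) (by linarith)).symm
  have hL1 : 1 ≤ L := by
    rw [hL, Real.le_logb_iff_rpow_le (by norm_num) (by linarith)]
    simpa using hp2
  have hk' : (k : ℝ) ≤ p := by exact_mod_cast hk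
  have hL2 : 10 ≤ L := by
    rw [hL, Real.le_logb_iff_rpow_le (by norm_num) (by linarith)]
    have : (2 : ℝ) ^ (10 : ℝ) = 1024 := by norm_num
    nlinarith
  have hs1 : 320 ≤ s := by linarith
  set e := Nat.sqrt k with he
  have he1 : (e : ℝ) ≤ s := Real.nat_sqrt_le_real_sqrt
  have he2 : s ≤ e + 1 := Real.real_sqrt_le_nat_sqrt_succ
  have he3 : e * e ≤ k := Nat.sqrt_le k
  have he4 : 3 ≤ e := by
    have : (3 : ℝ) ≤ e := by linarith
    exact_mod_cast this
  have hc : 2 * e.choose 2 + e = e * e := by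
    have h1 := Nat.choose_two_right e
    have h2 : 2 ∣ e * (e - 1) := (Nat.even_mul_pred_self e).two_dvd
    obtain ⟨m, hm⟩ : ∃ m, e = m + 1 := ⟨e - 1, by omega⟩
    rw [h1, Nat.mul_div_cancel' h2, hm]
    simp only [Nat.add_sub_cancel]
    ring
  have hden : 0 < (2 * e + 3 : ℝ) * L := by positivity
  set D := ⌊(k / 2 : ℝ) / ((2 * e + 3) * L)⌋₊ with hD
  have hD1 : (D : ℝ) * ((2 * e + 3) * L) ≤ k / 2 :=
    (le_div_iff₀ hden).1 (Nat.floor_le (by positivity))
  have hD2 : (k / 2 : ℝ) ≤ (D + 1) * ((2 * e + 3) * L) :=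
    (div_le_iff₀ hden).1 (Nat.lt_floor_add_one _).le
  have h2 : 2 ∣ e * (e + 1) := (Nat.even_mul_succ_self e).two_dvd
  obtain ⟨m, hm⟩ := h2
  refine ⟨e, D, k - e.choose 2, D * m, by omega, ?_, by rw [hm]; linarith, ?_⟩
  · have h3 : (k + 3 : ℝ) ≤ 2 * ((k - e.choose 2 : ℕ) : ℝ) := by
      exact_mod_cast (by omega : k + 3 ≤ 2 * (k - e.choose 2))
    have h4 : (2 : ℝ) * (p : ℝ) ^ ((2 * e + 3) * D) < 2 ^ (k - e.choose 2) := by
      rw [hpL, ← Real.rpow_natCast, ← Real.rpow_mul (by norm_num), ← Real.rpow_natCast 2, mul_comm,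
        ← Real.rpow_add_one (by norm_num)]
      refine Real.rpow_lt_rpow_of_exponent_lt (by norm_num) ?_
      push_cast
      nlinarith
    exact_mod_cast h4
  · rw [hpL, ← Real.rpow_natCast, ← Real.rpow_mul (by norm_num)]
    refine Real.rpow_le_rpow_of_exponent_le (by norm_num) ?_
    have hm' : (e : ℝ) * (e + 1) = 2 * m := by exact_mod_cast hm
    have h5 : (s - 1) * s ≤ 2 * m := by nlinarith
    have h6 : s * s / 2 ≤ (D * L + s / 32) * (2 * s + 3) := by
      have h7 : (0 : ℝ) ≤ D * L := by positivity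
      nlinarith
    have h8 : s * (21 / 100) ≤ D * L := by
      by_contra hc
      push Not at hc
      nlinarith
    have h9 : s * (21 / 100) * ((s - 1) * s) ≤ D * L * (2 * m) :=
      mul_le_mul h8 h5 (by nlinarith) (by positivity)
    push_cast
    rw [← hss]
    nlinarith [mul_pos (by linarith : 0 < s) (by linarith : 0 < s)]

end Pool.Agent.MP_a31471_co.ff
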